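import Mathlib

/-!
# Rigid maximal diameter-`r` subsets of the hypercube with more than `2 ^ r` points (proofs)

The definitions are unfolded in the statement of `main`.
-/

set_option autoImplicit false

open Finset

namespace Pool.Agent.Helper45.RigidProof

/-- Diameter. -/
def diam {ι : Type} [Fintype ι] (A : Finset (ι → ℤˣ)) : ℕ :=
  A.sup fun x => A.sup fun y => hammingDist x y

/-- Maximally diameter-`r`. -/
def IsMaximallyDiam {ι : Type} [Fintype ι] (r : ℕ) (A : Finset (ι → ℤˣ)) : Prop :=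
  diam A = r ∧ ∀ x : ι → ℤˣ, x ∉ A → r < diam (insert x A)

/-- Rigid. -/
def IsRigid {ι : Type} [Fintype ι] (A : Finset (ι → ℤˣ)) : Prop :=
  ∀ a ∈ A, (A.sup fun x => hammingDist x a) = diam A

/-! ### A convenient reformulation -/

/-- Working form: nonempty, pairwise distances at most `r`, every point of `A` has a partner at
distance exactly `r`, every point outside `A` is at distance more than `r` from a point of `A`. -/
def Good {ι : Type} [Fintype ι] (r : ℕ) (A : Finset (ι → ℤˣ)) : Prop :=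
  A.Nonempty ∧ (∀ x ∈ A, ∀ y ∈ A, hammingDist x y ≤ r) ∧
    (∀ x ∈ A, ∃ y ∈ A, hammingDist x y = r) ∧ (∀ x, x ∉ A → ∃ y ∈ A, r < hammingDist x y)

theorem diam_le_iff {ι : Type} [Fintype ι] (A : Finset (ι → ℤˣ)) (r : ℕ) :
    diam A ≤ r ↔ ∀ x ∈ A, ∀ y ∈ A, hammingDist x y ≤ r := by
  simp [diam, Finset.sup_le_iff]

theorem le_diam {ι : Type} [Fintype ι] {A : Finset (ι → ℤˣ)} {x y : ι → ℤˣ}
    (hx : x ∈ A) (hy : y ∈ A) : hammingDist x y ≤ diam A :=
  (diam_le_iff A _).1 le_rfl x hx y hy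

theorem Good.spec {ι : Type} [Fintype ι] {r : ℕ} {A : Finset (ι → ℤˣ)} (h : Good r A) :
    IsMaximallyDiam r A ∧ IsRigid A := by
  obtain ⟨⟨a, ha⟩, h1, h2, h3⟩ := h
  have hd : diam A = r := by
    apply le_antisymm ((diam_le_iff A r).2 h1)
    obtain ⟨b, hb, hab⟩ := h2 a ha
    rw [← hab]
    exact le_diam ha hb
  refine ⟨⟨hd, fun x hx => ?_⟩, fun x hx => ?_⟩
  · obtain ⟨y, hy, hxy⟩ := h3 x hx
    exact lt_of_lt_of_le hxy (le_diam (mem_insert_self x A) (mem_insert_of_mem hy))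
  · apply le_antisymm
    · apply Finset.sup_le
      intro y hy
      exact le_diam hy hx
    · rw [hd]
      obtain ⟨y, hy, hxy⟩ := h2 x hx
      rw [← hxy, hammingDist_comm]
      exact Finset.le_sup (f := fun z => hammingDist z x) hy

/-! ### Products -/

theorem dist_sum {ι κ : Type} [Fintype ι] [Fintype κ] (x y : ι ⊕ κ → ℤˣ) :
    hammingDist x y = hammingDist (fun i => x (Sum.inl i)) (fun i => y (Sum.inl i)) +
      hammingDist (fun j => x (Sum.inr j)) (fun j => y (Sum.inr j)) := by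
  classical
  simp only [hammingDist, Finset.card_filter, Fintype.sum_sum_type]

theorem dist_elim {ι κ : Type} [Fintype ι] [Fintype κ] (x : ι ⊕ κ → ℤˣ) (u : ι → ℤˣ)
    (v : κ → ℤˣ) : hammingDist x (Sum.elim u v) =
      hammingDist (fun i => x (Sum.inl i)) u + hammingDist (fun j => x (Sum.inr j)) v :=
  dist_sum x (Sum.elim u v)

/-- The product of `A` and `B`. -/
def prodSet {ι κ : Type} [Fintype ι] [Fintype κ] (A : Finset (ι → ℤˣ)) (B : Finset (κ → ℤˣ)) :
    Finset (ι ⊕ κ → ℤˣ) :=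
  (A ×ˢ B).map (Equiv.sumArrowEquivProdArrow ι κ ℤˣ).symm.toEmbedding

theorem mem_prodSet {ι κ : Type} [Fintype ι] [Fintype κ] (A : Finset (ι → ℤˣ))
    (B : Finset (κ → ℤˣ)) (x : ι ⊕ κ → ℤˣ) :
    x ∈ prodSet A B ↔ (fun i => x (Sum.inl i)) ∈ A ∧ (fun j => x (Sum.inr j)) ∈ B := by
  unfold prodSet
  constructor
  · intro h
    obtain ⟨⟨u, v⟩, hp, rfl⟩ := Finset.mem_map.1 h
    simpa using hp
  · intro h
    refine Finset.mem_map.2 ⟨(fun i => x (Sum.inl i), fun j => x (Sum.inr j)), ?_, ?_⟩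
    · simpa using h
    · ext i
      rcases i with i | j <;> simp

theorem card_prodSet {ι κ : Type} [Fintype ι] [Fintype κ] (A : Finset (ι → ℤˣ))
    (B : Finset (κ → ℤˣ)) : (prodSet A B).card = A.card * B.card := by
  unfold prodSet
  rw [Finset.card_map, Finset.card_product]

theorem Good.prod {ι κ : Type} [Fintype ι] [Fintype κ] {r s : ℕ} {A : Finset (ι → ℤˣ)}
    {B : Finset (κ → ℤˣ)} (hA : Good r A) (hB : Good s B) : Good (r + s) (prodSet A B) := by
  obtain ⟨⟨a, ha⟩, a1, a2, a3⟩ := hA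
  obtain ⟨⟨b, hb⟩, b1, b2, b3⟩ := hB
  have join : ∀ (u : ι → ℤˣ) (v : κ → ℤˣ), u ∈ A → v ∈ B →
      (Sum.elim u v : ι ⊕ κ → ℤˣ) ∈ prodSet A B := by
    intro u v hu hv
    rw [mem_prodSet]
    exact ⟨by simpa using hu, by simpa using hv⟩
  refine ⟨⟨Sum.elim a b, join a b ha hb⟩, ?_, ?_, ?_⟩
  · intro x hx y hy
    rw [mem_prodSet] at hx hy
    rw [dist_sum]
    exact Nat.add_le_add (a1 _ hx.1 _ hy.1) (b1 _ hx.2 _ hy.2)
  · intro x hx
    rw [mem_prodSet] at hx
    obtain ⟨u, hu, hxu⟩ := a2 _ hx.1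
    obtain ⟨v, hv, hxv⟩ := b2 _ hx.2
    refine ⟨Sum.elim u v, join u v hu hv, ?_⟩
    rw [dist_elim, hxu, hxv]
  · intro x hx
    rw [mem_prodSet, not_and_or] at hx
    by_cases h1 : (fun i => x (Sum.inl i)) ∈ A
    · have h2 : (fun j => x (Sum.inr j)) ∉ B := by
        rcases hx with hx | hx
        · exact absurd h1 hx
        · exact hx
      obtain ⟨u, hu, hxu⟩ := a2 _ h1
      obtain ⟨v, hv, hxv⟩ := b3 _ h2
      refine ⟨Sum.elim u v, join u v hu hv, ?_⟩
      rw [dist_elim]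
      omega
    · obtain ⟨u, hu, hxu⟩ := a3 _ h1
      by_cases h2 : (fun j => x (Sum.inr j)) ∈ B
      · obtain ⟨v, hv, hxv⟩ := b2 _ h2
        refine ⟨Sum.elim u v, join u v hu hv, ?_⟩
        rw [dist_elim]
        omega
      · obtain ⟨v, hv, hxv⟩ := b3 _ h2
        refine ⟨Sum.elim u v, join u v hu hv, ?_⟩
        rw [dist_elim]
        omega

/-! ### Relabelling coordinates -/

theorem dist_equiv {ι κ : Type} [Fintype ι] [Fintype κ] (e : ι ≃ κ) (x y : κ → ℤˣ) :
    hammingDist (fun i => x (e i)) (fun i => y (e i)) = hammingDist x y := by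
  classical
  simp only [hammingDist, Finset.card_filter]
  exact Equiv.sum_comp e (fun k => if x k ≠ y k then 1 else 0)

theorem Good.equiv {ι κ : Type} [Fintype ι] [Fintype κ] (e : ι ≃ κ) {r m : ℕ}
    (h : ∃ A : Finset (ι → ℤˣ), Good r A ∧ A.card = m) :
    ∃ A : Finset (κ → ℤˣ), Good r A ∧ A.card = m := by
  obtain ⟨A, ⟨⟨a, ha⟩, a1, a2, a3⟩, hm⟩ := h
  let f : (ι → ℤˣ) ≃ (κ → ℤˣ) := Equiv.arrowCongr e (Equiv.refl _)
  have hf : ∀ x y : ι → ℤˣ, hammingDist (f x) (f y) = hammingDist x y := by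
    intro x y
    rw [← dist_equiv e (f x) (f y)]
    simp [f]
  have hmem : ∀ x : κ → ℤˣ, x ∈ A.map f.toEmbedding ↔ f.symm x ∈ A := by
    intro x
    rw [Finset.mem_map_equiv]
  refine ⟨A.map f.toEmbedding, ⟨⟨f a, by rw [hmem]; simpa using ha⟩, ?_, ?_, ?_⟩, ?_⟩
  · intro x hx y hy
    rw [hmem] at hx hy
    have := a1 _ hx _ hy
    rw [← hf] at this
    simpa using this
  · intro x hx
    rw [hmem] at hx
    obtain ⟨y, hy, hxy⟩ := a2 _ hx
    refine ⟨f y, by rw [hmem]; simpa using hy, ?_⟩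
    rw [← hf] at hxy
    simpa using hxy
  · intro x hx
    rw [hmem] at hx
    obtain ⟨y, hy, hxy⟩ := a3 _ hx
    refine ⟨f y, by rw [hmem]; simpa using hy, ?_⟩
    rw [← hf] at hxy
    simpa using hxy
  · rw [Finset.card_map, hm]

/-! ### The small building blocks -/

theorem good_point : ∃ A : Finset (Fin 1 → ℤˣ), Good 0 A ∧ A.card = 1 := by
  refine ⟨{fun _ => 1}, ⟨⟨fun _ => 1, by simp⟩, ?_, ?_, ?_⟩, by simp⟩
  · intro x hx y hy
    simp only [mem_singleton] at hx hy
    subst hx hy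
    simp
  · intro x hx
    exact ⟨x, hx, hammingDist_self x⟩
  · intro x hx
    refine ⟨fun _ => 1, by simp, ?_⟩
    rw [hammingDist_pos]
    intro h
    exact hx (by simp [h])

theorem good_empty : ∃ A : Finset (Fin 0 → ℤˣ), Good 0 A ∧ A.card = 1 := by
  refine ⟨{fun _ => 1}, ⟨⟨fun _ => 1, by simp⟩, ?_, ?_, ?_⟩, by simp⟩
  · intro x hx y hy
    simp only [mem_singleton] at hx hy
    subst hx hy
    simp
  · intro x hx
    exact ⟨x, hx, hammingDist_self x⟩
  · intro x hx
    exact absurd (by rw [mem_singleton]; exact Subsingleton.elim _ _) hx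

theorem good_edge : ∃ A : Finset (Fin 1 → ℤˣ), Good 1 A ∧ A.card = 2 := by
  refine ⟨Finset.univ, ⟨⟨fun _ => 1, by simp⟩, ?_, ?_, ?_⟩, ?_⟩
  · intro x _ y _
    exact hammingDist_le_card_fintype
  · intro x _
    refine ⟨fun i => - x i, mem_univ _, ?_⟩
    have : ∀ u : ℤˣ, u ≠ -u := by decide
    simp [hammingDist, this]
  · intro x hx
    exact absurd (mem_univ x) hx
  · simp

/-! ### The 37 points in `Q_7` -/

/-- The point of `Q_7` with code `c`: coordinate `i` is `-1` exactly when the `i`-th binary digit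
of `c` is `1`. -/
def pt (c : ℕ) : Fin 7 → ℤˣ := fun i => if c.testBit i then -1 else 1

/-- The codes of the 37 points. -/
def codes : List ℕ :=
  [0b0000000, 0b0000101, 0b0000110, 0b0001000, 0b0001001, 0b0001010, 0b0001101, 0b0001110,
   0b0001111, 0b0010001, 0b0010010, 0b0010111, 0b0011001, 0b0011010, 0b0011011, 0b0011111,
   0b0100001, 0b0100010, 0b0100111, 0b0101001, 0b0101010, 0b0101011, 0b0101111, 0b0110011,
   0b0111011, 0b1000001, 0b1000010, 0b1000111, 0b1001001, 0b1001010, 0b1001011, 0b1001111,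
   0b1010011, 0b1011011, 0b1100011, 0b1101011, 0b1111100]

/-- Number of binary digits in which `a` and `b` differ (first seven digits). -/
def hd (a b : ℕ) : ℕ :=
  (a.testBit 0 ^^ b.testBit 0).toNat + (a.testBit 1 ^^ b.testBit 1).toNat +
  (a.testBit 2 ^^ b.testBit 2).toNat + (a.testBit 3 ^^ b.testBit 3).toNat +
  (a.testBit 4 ^^ b.testBit 4).toNat + (a.testBit 5 ^^ b.testBit 5).toNat +
  (a.testBit 6 ^^ b.testBit 6).toNat

theorem dist_pt (a b : ℕ) : hammingDist (pt a) (pt b) = hd a b := by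
  have key : ∀ u v : Bool, (if (if u = true then (-1 : ℤˣ) else 1) ≠
      (if v = true then (-1 : ℤˣ) else 1) then 1 else 0) = (u ^^ v).toNat := by decide
  have key' : ∀ i : Fin 7, (if pt a i ≠ pt b i then 1 else 0) =
      (a.testBit i ^^ b.testBit i).toNat := fun i => key _ _
  unfold hammingDist hd
  rw [Finset.card_filter, Finset.sum_congr rfl (fun i _ => key' i), Fin.sum_univ_seven]
  rfl

theorem pt_surj (x : Fin 7 → ℤˣ) : ∃ c < 128, pt c = x := by
  let f : Fin 128 → (Fin 7 → ℤˣ) := fun c => pt c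
  have hinj : Function.Injective f := by
    intro a b hab
    have h0 : hd a b = 0 := by
      rw [← dist_pt]
      exact hammingDist_eq_zero.2 hab
    have : ∀ a : Fin 128, ∀ b : Fin 128, hd a b = 0 → a = b := by decide +kernel
    exact this a b h0
  have hbij : Function.Bijective f := by
    rw [Fintype.bijective_iff_injective_and_card]
    refine ⟨hinj, ?_⟩
    simp
  obtain ⟨c, hc⟩ := hbij.2 x
  exact ⟨c, c.2, hc⟩

theorem good_37 : ∃ A : Finset (Fin 7 → ℤˣ), Good 5 A ∧ A.card = 37 := by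
  classical
  have inj : ∀ a ∈ codes, ∀ b ∈ codes, pt a = pt b → a = b := by
    intro a ha b hb hab
    have h0 : hd a b = 0 := by
      rw [← dist_pt]
      exact hammingDist_eq_zero.2 hab
    have : ∀ a ∈ codes, ∀ b ∈ codes, hd a b = 0 → a = b := by decide +kernel
    exact this a ha b hb h0
  refine ⟨codes.toFinset.image pt, ⟨⟨pt 0, ?_⟩, ?_, ?_, ?_⟩, ?_⟩
  · exact Finset.mem_image_of_mem pt (by decide)
  · intro x hx y hy
    obtain ⟨a, ha, rfl⟩ := Finset.mem_image.1 hx
    obtain ⟨b, hb, rfl⟩ := Finset.mem_image.1 hy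
    rw [List.mem_toFinset] at ha hb
    rw [dist_pt]
    have : ∀ a ∈ codes, ∀ b ∈ codes, hd a b ≤ 5 := by decide +kernel
    exact this a ha b hb
  · intro x hx
    obtain ⟨a, ha, rfl⟩ := Finset.mem_image.1 hx
    rw [List.mem_toFinset] at ha
    have : ∀ a ∈ codes, ∃ b ∈ codes, hd a b = 5 := by decide +kernel
    obtain ⟨b, hb, hab⟩ := this a ha
    exact ⟨pt b, Finset.mem_image_of_mem pt (List.mem_toFinset.2 hb), by rw [dist_pt, hab]⟩
  · intro x hx
    obtain ⟨c, hc, rfl⟩ := pt_surj x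
    have h1 : ∀ c < 128, c ∉ codes → ∃ b ∈ codes, 5 < hd c b := by decide +kernel
    have h2 : c ∉ codes := fun h =>
      hx (Finset.mem_image_of_mem pt (List.mem_toFinset.2 h))
    obtain ⟨b, hb, hcb⟩ := h1 c hc h2
    exact ⟨pt b, Finset.mem_image_of_mem pt (List.mem_toFinset.2 hb), by rw [dist_pt]; exact hcb⟩
  · rw [Finset.card_image_of_injOn]
    · decide +kernel
    · intro a ha b hb hab
      rw [Finset.mem_coe, List.mem_toFinset] at ha hb
      exact inj a ha b hb hab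

/-! ### Assembly -/

theorem good_step {n t r s m m' : ℕ} (h : ∃ A : Finset (Fin n → ℤˣ), Good r A ∧ A.card = m)
    (h' : ∃ A : Finset (Fin t → ℤˣ), Good s A ∧ A.card = m') :
    ∃ A : Finset (Fin (n + t) → ℤˣ), Good (r + s) A ∧ A.card = m * m' := by
  obtain ⟨A, hA, rfl⟩ := h
  obtain ⟨B, hB, rfl⟩ := h'
  exact Good.equiv finSumFinEquiv ⟨prodSet A B, hA.prod hB, card_prodSet A B⟩

theorem good_pow (k : ℕ) : ∃ A : Finset (Fin (7 * k) → ℤˣ), Good (5 * k) A ∧ A.card = 37 ^ k := by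
  induction k with
  | zero => simpa using good_empty
  | succ k ih =>
    have := good_step ih good_37
    rw [pow_succ]
    exact this

theorem good_cube (n r m : ℕ) (h : ∃ A : Finset (Fin n → ℤˣ), Good r A ∧ A.card = m) (s : ℕ) :
    ∃ A : Finset (Fin (n + s) → ℤˣ), Good (r + s) A ∧ A.card = m * 2 ^ s := by
  induction s with
  | zero => simpa using h
  | succ s ih =>
    have := good_step ih good_edge
    rw [pow_succ, ← mul_assoc]
    exact this

theorem good_const (n r m : ℕ) (h : ∃ A : Finset (Fin n → ℤˣ), Good r A ∧ A.card = m) (t : ℕ) :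
    ∃ A : Finset (Fin (n + t) → ℤˣ), Good r A ∧ A.card = m := by
  induction t with
  | zero => simpa using h
  | succ t ih =>
    have := good_step ih good_point
    rw [mul_one] at this
    exact this

/-- Main theorem. -/
theorem main (k s n : ℕ) (hn : 7 * k + s ≤ n) :
    ∃ A : Finset (Fin n → ℤˣ),
      IsMaximallyDiam (5 * k + s) A ∧ IsRigid A ∧ A.card = 37 ^ k * 2 ^ s := by
  obtain ⟨t, rfl⟩ := Nat.exists_eq_add_of_le hn
  obtain ⟨A, hA, hc⟩ := good_const _ _ _ (good_cube _ _ _ (good_pow k) s) t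
  exact ⟨A, hA.spec.1, hA.spec.2, hc⟩

end Pool.Agent.Helper45.RigidProof
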